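import Pool.Agent.MWGP.Stmts

/-!
# Row GD0: an entry `1` absorbs iff `D 0`
-/

namespace Pool.Agent.MWGP.H74

open Pool.Agent.Helper14_MV Pool.Agent.Helper2_MV Pool.Agent.MVO Pool.Agent.MWL Pool.Agent.MWS
  Pool.Agent.MWH Pool.Agent.MWGP

/-- **GD0** -/
theorem gd0 (h1 : MWL.Ta1Stmt) : Gd0Stmt := by
  intro n R hR k a j hG hd hj ha
  have hz : ∀ l, l < j → a l = 0 := by
    intro l hl
    by_contra hc
    have := hG l j hl hj hc (by omega)
    omega
  have hlb : lb a j = 0 := by
    unfold lb
    rw [Finset.card_eq_zero, Finset.filter_eq_empty_iff]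
    intro l hl
    rw [Finset.mem_range] at hl
    simp [hz l hl]
  have hq : ∃ q, j < q ∧ q ≤ k ∧ 2 ≤ a q := by
    by_contra hc
    push_neg at hc
    have h0 : ∀ q ∈ Finset.range (k + 1), q ≠ j → a q = 0 := by
      intro q hq hqj
      rw [Finset.mem_range] at hq
      rcases lt_or_gt_of_ne hqj with h | h
      · exact hz q h
      · by_contra hne
        have h2 := hG j q h (by omega) (by omega) hne
        have h3 := hc q h (by omega)
        omega
    have h4 : deg k a = a j := by
      unfold deg
      exact Finset.sum_eq_single_of_mem j (Finset.mem_range.2 (by omega)) h0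
    omega
  have h5 := (h1 n R hR k a j hj).2.2.2 ha (by
    intro p hp
    rcases Nat.lt_or_eq_of_le hp with h | h
    · rw [hz p h]; omega
    · rw [h, ha]) hq
  rw [hlb] at h5
  exact h5

end Pool.Agent.MWGP.H74
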